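import Pool.Agent.Helper18.KO.Defs
import Pool.Agent.Helper18.BN.Linear

/-!
KO, parts MIN1 and MIN2: even vectors with all degrees at most two.
-/

set_option autoImplicit false

namespace BNTW

open Finset Pool.Agent.Helper36.BN

namespace H48

variable {V E : Type} [Fintype V] [DecidableEq V] [Fintype E] [DecidableEq E]

/-- A nonzero even vector such that no other nonzero even vector is supported on its support has
degrees at most two. -/
lemma deg_le_two {s t : E → V} {F : Finset E} (hl : ∀ e ∈ F, s e ≠ t e) {y : E → ZMod 2}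
    (hy : y ∈ cyc s t F) (hy0 : y ≠ 0)
    (hmin : ∀ z ∈ cyc s t F, z ≠ 0 → (∀ e, z e ≠ 0 → y e ≠ 0) → z = y) (v : V) :
    (univ.filter (fun e => y e ≠ 0 ∧ (s e = v ∨ t e = v))).card ≤ 2 := by
  classical
  obtain ⟨e0, he0⟩ : ∃ e, y e ≠ 0 := by
    by_contra h
    push Not at h
    exact hy0 (funext h)
  set Y : Finset E := univ.filter (fun e => y e ≠ 0) with hY
  have hYF : ∀ e ∈ Y, e ∈ F := by
    intro e he
    by_contra h
    exact (mem_filter.1 he).2 (hy.1 e h)
  set S : Finset V := univ.filter (fun v => ∃ e ∈ Y, s e = v ∨ t e = v) with hS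
  have hsS : ∀ e ∈ Y, s e ∈ S := fun e he => mem_filter.2 ⟨mem_univ _, e, he, Or.inl rfl⟩
  have htS : ∀ e ∈ Y, t e ∈ S := fun e he => mem_filter.2 ⟨mem_univ _, e, he, Or.inr rfl⟩
  have he0Y : e0 ∈ Y := mem_filter.2 ⟨mem_univ _, he0⟩
  -- count
  have hcard : (Y.erase e0).card ≤ S.card - 1 := by
    apply card_le_of_indep (Y.erase e0) (fun e v => Pool.Agent.Helper36.BN.inc s t v e) S
    · intro e he x hx
      have heY := mem_of_mem_erase he
      have h1 : s e ≠ x := by rintro rfl; exact hx (hsS e heY)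
      have h2 : t e ≠ x := by rintro rfl; exact hx (htS e heY)
      simp [Pool.Agent.Helper36.BN.inc, h1, h2]
    · intro e he
      have heY := mem_of_mem_erase he
      simp only [Pool.Agent.Helper36.BN.inc]
      rw [sum_add_distrib, sum_ite_eq, sum_ite_eq, if_pos (hsS e heY), if_pos (htS e heY)]
      decide
    · intro J hJ hJne
      by_contra hcon
      push Not at hcon
      set z : E → ZMod 2 := fun e => if e ∈ J then 1 else 0 with hz
      have hzc : z ∈ cyc s t F := by
        refine ⟨fun e he => ?_, fun x => ?_⟩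
        · rw [hz]
          simp only [ite_eq_right_iff]
          intro heJ
          exact absurd (hYF e (mem_of_mem_erase (hJ heJ))) he
        · have := hcon x
          rw [← this, hz]
          simp only [ite_mul, one_mul, zero_mul]
          rw [← sum_filter]
          congr 1
          ext e; simp
      have hz0 : z ≠ 0 := by
        obtain ⟨e, he⟩ := hJne
        intro h
        have := congrFun h e
        simp [hz, he] at this
      have hzy : z = y := by
        apply hmin z hzc hz0
        intro e he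
        have heJ : e ∈ J := by
          by_contra h
          exact he (by simp [hz, h])
        exact (mem_filter.1 (mem_of_mem_erase (hJ heJ))).2
      have h1 := congrFun hzy e0
      have h2 : e0 ∉ J := fun h => (mem_erase.1 (hJ h)).1 rfl
      rw [← h1] at he0
      exact he0 (by simp [hz, h2])
  have hS1 : 1 ≤ S.card := card_pos.2 ⟨_, hsS e0 he0Y⟩
  rw [card_erase_of_mem he0Y] at hcard
  have hYS : Y.card ≤ S.card := by
    have : 1 ≤ Y.card := card_pos.2 ⟨_, he0Y⟩
    omega
  -- degrees
  set g : V → ℕ := fun v => (Y.filter (fun e => s e = v ∨ t e = v)).card with hg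
  have hgv : (univ.filter (fun e => y e ≠ 0 ∧ (s e = v ∨ t e = v))).card = g v := by
    rw [hg]
    simp only [hY, filter_filter]
  rw [hgv]
  have heven : ∀ v, (g v : ZMod 2) = 0 := by
    intro v
    rw [hg, ← hy.2 v]
    simp only
    rw [card_filter, Nat.cast_sum, hY, sum_filter]
    apply sum_congr rfl
    intro e _
    by_cases h : y e = 0
    · simp [h]
    · have h1 : y e = 1 := z2_ne.1 h
      have hne : s e ≠ t e := hl e (hYF e (mem_filter.2 ⟨mem_univ _, h⟩))
      rw [if_pos h, h1, one_mul]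
      unfold Pool.Agent.Helper36.BN.inc
      by_cases h2 : s e = v
      · have h3 : ¬ t e = v := fun h3 => hne (h2.trans h3.symm)
        simp [h2, h3]
      · by_cases h3 : t e = v
        · simp [h2, h3]
        · simp [h2, h3]
  have hge : ∀ v ∈ S, 2 ≤ g v := by
    intro v hv
    obtain ⟨-, e, he, hev⟩ := mem_filter.1 hv
    have h1 : 1 ≤ g v := card_pos.2 ⟨e, mem_filter.2 ⟨he, hev⟩⟩
    have h2 := heven v
    rw [ZMod.natCast_eq_zero_iff] at h2
    omega
  have hsum : ∑ v ∈ S, g v = 2 * Y.card := by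
    have h1 : ∀ v, g v = ∑ e ∈ Y, if s e = v ∨ t e = v then 1 else 0 := by
      intro v
      rw [hg]
      simp only [card_filter]
    rw [sum_congr rfl (fun v _ => h1 v), sum_comm]
    have h2 : ∀ e ∈ Y, (∑ v ∈ S, if s e = v ∨ t e = v then 1 else 0) = 2 := by
      intro e he
      have hne := hl e (hYF e he)
      have h3 : ∀ v ∈ S, (if s e = v ∨ t e = v then 1 else 0) =
          (if s e = v then 1 else 0) + (if t e = v then 1 else 0) := by
        intro v _
        by_cases h4 : s e = v
        · have h5 : ¬ t e = v := fun h5 => hne (h4.trans h5.symm)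
          simp [h4, h5]
        · simp [h4]
      rw [sum_congr rfl h3, sum_add_distrib, sum_ite_eq, sum_ite_eq, if_pos (hsS e he),
        if_pos (htS e he)]
    rw [sum_congr rfl h2, sum_const, smul_eq_mul, mul_comm]
  by_cases hv : v ∈ S
  · have h1 := add_sum_erase S g hv
    have h2 : (S.erase v).card * 2 ≤ ∑ x ∈ S.erase v, g x := by
      rw [← smul_eq_mul, ← sum_const]
      exact sum_le_sum fun x hx => hge x (mem_of_mem_erase hx)
    rw [card_erase_of_mem hv] at h2
    omega
  · have : g v = 0 := by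
      rw [hg]
      simp only [card_eq_zero]
      rw [filter_eq_empty_iff]
      intro e he hev
      exact hv (mem_filter.2 ⟨mem_univ _, e, he, hev⟩)
    omega

lemma eq_of_supp {y z : E → ZMod 2} (h : ∀ e, z e ≠ 0 → y e ≠ 0)
    (hc : (univ.filter (fun e => y e ≠ 0)).card ≤ (univ.filter (fun e => z e ≠ 0)).card) :
    z = y := by
  have h1 : univ.filter (fun e => z e ≠ 0) = univ.filter (fun e => y e ≠ 0) := by
    apply eq_of_subset_of_card_le
    · intro e he
      exact mem_filter.2 ⟨mem_univ _, h e (mem_filter.1 he).2⟩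
    · exact hc
  funext e
  by_cases h2 : z e = 0
  · by_contra h3
    have h4 : y e ≠ 0 := fun h5 => h3 (h2.trans h5.symm)
    have : e ∈ univ.filter (fun e => y e ≠ 0) := mem_filter.2 ⟨mem_univ _, h4⟩
    rw [← h1] at this
    exact (mem_filter.1 this).2 h2
  · rw [z2_ne.1 h2, z2_ne.1 (h e h2)]

end H48

theorem t_MIN1 : S_MIN1 := by
  intro V E _ _ _ _ s t F hl x hx hx0
  classical
  set Q : Finset (E → ZMod 2) := univ.filter (fun y => y ∈ cyc s t F ∧ y ≠ 0 ∧
    ∀ e, y e ≠ 0 → x e ≠ 0) with hQ
  have hne : Q.Nonempty := ⟨x, mem_filter.2 ⟨mem_univ _, hx, hx0, fun e he => he⟩⟩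
  obtain ⟨y, hyQ, hmin⟩ := exists_min_image Q
    (fun y => (univ.filter (fun e => y e ≠ 0)).card) hne
  obtain ⟨-, hy, hy0, hyx⟩ := mem_filter.1 hyQ
  refine ⟨y, hy, hy0, hyx, ?_⟩
  apply H48.deg_le_two hl hy hy0
  intro z hz hz0 hzy
  apply H48.eq_of_supp hzy
  exact hmin z (mem_filter.2 ⟨mem_univ _, hz, hz0, fun e he => hyx e (hzy e he)⟩)

theorem t_MIN2 : S_MIN2 := by
  intro V E _ _ _ _ s t F hl ι _ _ b
  classical
  let sz : Module.Basis ι (ZMod 2) (cyc s t F) → ℕ := fun b' =>
    ∑ j, (univ.filter (fun e => (b' j : E → ZMod 2) e ≠ 0)).card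
  have hex : ∃ n, ∃ b' : Module.Basis ι (ZMod 2) (cyc s t F),
      (∀ j e, (b' j : E → ZMod 2) e ≠ 0 → (b j : E → ZMod 2) e ≠ 0) ∧ sz b' = n :=
    ⟨sz b, b, fun j e h => h, rfl⟩
  obtain ⟨b', hb', hn⟩ := Nat.find_spec hex
  have hminb : ∀ b'' : Module.Basis ι (ZMod 2) (cyc s t F),
      (∀ j e, (b'' j : E → ZMod 2) e ≠ 0 → (b j : E → ZMod 2) e ≠ 0) → sz b' ≤ sz b'' := by
    intro b'' h
    rw [hn]
    exact Nat.find_min' hex ⟨b'', h, rfl⟩
  refine ⟨b', fun j => ⟨hb' j, ?_⟩⟩
  apply H48.deg_le_two hl (b' j).2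
  · intro h
    exact b'.ne_zero j (Subtype.ext h)
  -- the exchange
  have key : ∀ z : cyc s t F, b'.repr z j ≠ 0 →
      (∀ e, (z : E → ZMod 2) e ≠ 0 → (b' j : E → ZMod 2) e ≠ 0) →
      (z : E → ZMod 2) = (b' j : E → ZMod 2) := by
    intro z hz hzs
    obtain ⟨b'', hb''⟩ := exchange b' z j hz
    apply H48.eq_of_supp hzs
    have h1 := hminb b'' (by
      intro i e he
      rw [hb'' i] at he
      split_ifs at he with hij
      · rw [hij]
        exact hb' j e (hzs e he)
      · exact hb' i e he)
    simp only [sz] at h1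
    rw [← add_sum_erase univ _ (mem_univ j), ← add_sum_erase univ _ (mem_univ j)] at h1
    have h2 : ∑ i ∈ univ.erase j, (univ.filter (fun e => (b'' i : E → ZMod 2) e ≠ 0)).card =
        ∑ i ∈ univ.erase j, (univ.filter (fun e => (b' i : E → ZMod 2) e ≠ 0)).card := by
      apply sum_congr rfl
      intro i hi
      rw [hb'' i, if_neg (ne_of_mem_erase hi)]
    rw [h2, hb'' j, if_pos rfl] at h1
    exact Nat.le_of_add_le_add_right h1
  intro z hz hz0 hzs
  by_cases hr : b'.repr ⟨z, hz⟩ j = 0
  · -- use the sum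
    exfalso
    have h1 := key (b' j + ⟨z, hz⟩) (by
      rw [map_add, Finsupp.add_apply, hr, add_zero, Module.Basis.repr_self,
        Finsupp.single_eq_same]
      decide) (by
      intro e he hb0
      have h3 : z e = 0 := by
        by_contra h3
        exact hzs e h3 hb0
      apply he
      rw [Submodule.coe_add, Pi.add_apply, hb0]
      simpa using h3)
    rw [Submodule.coe_add] at h1
    apply hz0
    simpa using h1
  · exact key ⟨z, hz⟩ hr hzs

end BNTW
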